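import Mathlib
import Pool.Agent.X329.Dmod.NonHol

/-!
# Extensions of holonomic D-modules in positive characteristic are not always holonomic

Let `k` be any field of characteristic `p > 0` and `𝒟` the ring of differential operators of `k[x]`
(one variable, `n = 1`). Let `f = ∑_j x ^ (p ^ (j + 1) + p ^ (2 j + 2))`, a formal power series such
that `D_t f` is a polynomial for every `t ≥ 1`. Then `M = k[x] + k[x] f` is a `𝒟`-module, the
submodule `M' = k[x]` and the quotient `M / M' ≅ k[x]` are holonomic, but `M` is not: the dimension
of `F_s {1, f}` is not bounded by a multiple of `s`.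
-/

set_option autoImplicit false

namespace Pool.Agent.Results.MP_66748c_al.ExtensionNotHolonomic

open Pool.Agent.X329.Dmod Polynomial

universe u

/-- For every field `k` of characteristic `p > 0` there are a finitely generated module `M` over the
ring of differential operators of `k[x]`, which is not holonomic, and a holonomic submodule `M'` of
`M` such that `M / M'` is holonomic. -/
theorem result (p : ℕ) [Fact p.Prime] (k : Type u) [Field k] [CharP k p] :
    ∃ (M : Type u) (_ : AddCommGroup M) (_ : Module k M) (_ : Module (DOp k) M)
      (_ : IsScalarTower k (DOp k) M) (M' : Submodule (DOp k) M),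
      Module.Finite (DOp k) M ∧ IsHolonomic k M' ∧ IsHolonomic k (M ⧸ M') ∧
        ¬ IsHolonomic k M := by
  refine ⟨MM k p, inferInstance, inferInstance, inferInstance, inferInstance,
    Sub (adm (k := k) p monoA ltAB), ?_, holonomic_of_surjective _ (toSub_surjective _),
    holonomic_of_surjective _ (toQuot_surjective _), not_holonomic k p⟩
  exact ⟨Submodule.fg_def.2 ⟨gens (adm (k := k) p monoA ltAB),
    (Set.finite_singleton _).insert _, gens_span _⟩⟩

end Pool.Agent.Results.MP_66748c_al.ExtensionNotHolonomic
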